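import Mathlib
import Pool.Agent.Helper43.OD.Height4

set_option autoImplicit false

namespace Pool.Agent.Helper43.OD

open Finset

lemma hb_T_top (S s0 : ℕ) (c : ℕ → ℤ) (h2 : s0 ≤ S)
    (h3 : ∀ s, s0 < s → s ≤ S → c s = 0) (j : ℕ) : T s0 0 c j = T S 0 c j := by
  unfold T
  congr 1
  apply Finset.sum_subset
  · intro s hs
    have := Finset.mem_Icc.1 hs
    rw [Finset.mem_Icc]; omega
  · intro s hs hs'
    have a1 := Finset.mem_Icc.1 hs
    have : s0 < s := by
      by_contra hc
      exact hs' (Finset.mem_Icc.2 ⟨a1.1, by omega⟩)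
    rw [h3 s this a1.2]; simp

/-- the factorial of j, p <= j <= 2p - 2, is p times a number prime to p -/
lemma hb_fact (p j : ℕ) (hp : p.Prime) (h1 : p ≤ j) (h2 : j ≤ 2 * p - 2) :
    ∃ M : ℕ, j.factorial = p * M ∧ ¬ p ∣ M := by
  obtain ⟨q, rfl⟩ : ∃ q, p = q + 1 := ⟨p - 1, by have := hp.pos; omega⟩
  obtain ⟨m, rfl⟩ : ∃ m, j = q + 1 + m := ⟨j - (q + 1), by omega⟩
  refine ⟨q.factorial * (q + 1 + 1).ascFactorial m, ?_, ?_⟩
  · rw [← Nat.factorial_mul_ascFactorial, Nat.factorial_succ, mul_assoc]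
  · intro hd
    rcases (Nat.Prime.dvd_mul hp).1 hd with h | h
    · have := (hp.dvd_factorial).1 h
      omega
    · rw [Nat.ascFactorial_eq_prod_range] at h
      obtain ⟨i, hi, hi2⟩ := (Prime.dvd_finset_prod_iff hp.prime _).1 h
      have hi3 := Finset.mem_range.1 hi
      have h4 : (q + 1) ∣ (1 + i) := by
        have h5 : (q + 1) ∣ (q + 1) + (1 + i) := by
          have e : q + 1 + 1 + i = (q + 1) + (1 + i) := by ring
          rw [e] at hi2
          exact hi2
        exact (Nat.dvd_add_right (dvd_refl (q + 1))).1 h5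
      have := Nat.le_of_dvd (by omega) h4
      omega

lemma hb_cong (s0 : ℕ) (c : ℕ → ℤ) (p j : ℕ) (hp : p.Prime) (h1 : p ≤ j) (h2 : j ≤ 2 * p - 2)
    (hT : T s0 0 c j = 0) :
    (p : ℤ) ^ s0 ∣ ∑ s ∈ Finset.Icc 1 s0, c s * ((j + 1 : ℕ) : ℤ) ^ s * (p : ℤ) ^ (s0 - s) := by
  obtain ⟨M, hM, hpM⟩ := hb_fact p j hp h1 h2
  have hD : ∀ n ∈ Finset.range j, (n + 1) ∣ j.factorial := by
    intro n hn
    have := Finset.mem_range.1 hn
    exact Nat.dvd_factorial (Nat.succ_pos n) (by omega)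
  have h4 := T_int s0 0 c j j.factorial hD
  rw [hT, mul_zero] at h4
  have h5 : (∑ s ∈ Finset.Icc 1 s0, c s * ((j + 1 : ℕ) : ℤ) ^ s * ((j.factorial : ℕ) : ℤ) ^ (s0 - s) *
        (∑ n ∈ Finset.range j, ((j.factorial / (n + 1) : ℕ) : ℤ) ^ s) - 0 * ((j.factorial : ℕ) : ℤ) ^ s0 : ℤ) = 0 := by
    exact_mod_cast h4.symm
  rw [zero_mul, sub_zero] at h5
  -- the inner sums
  have h6 : ∀ s, ∑ n ∈ Finset.range j, ((j.factorial / (n + 1) : ℕ) : ℤ) ^ s =
      (M : ℤ) ^ s + (p : ℤ) ^ s * ∑ n ∈ (Finset.range j).erase (p - 1), ((M / (n + 1) : ℕ) : ℤ) ^ s := by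
    intro s
    have hp1 : p - 1 ∈ Finset.range j := by
      rw [Finset.mem_range]; have := hp.pos; omega
    rw [← Finset.add_sum_erase _ _ hp1]
    congr 1
    · congr 2
      have : p - 1 + 1 = p := by have := hp.pos; omega
      rw [this, hM]
      exact Nat.mul_div_cancel_left _ hp.pos
    · rw [Finset.mul_sum]
      apply Finset.sum_congr rfl
      intro n hn
      have a1 := Finset.mem_erase.1 hn
      have a2 := Finset.mem_range.1 a1.2
      have a3 : (n + 1) ∣ M := by
        have b1 : Nat.Coprime (n + 1) p := by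
          rw [Nat.coprime_comm]
          rw [hp.coprime_iff_not_dvd]
          intro hd
          obtain ⟨w, hw⟩ := hd
          have w1 : w < 2 := by
            by_contra hcon
            push Not at hcon
            have : p * 2 ≤ p * w := Nat.mul_le_mul_left p hcon
            omega
          have w2 : w ≠ 0 := by rintro rfl; omega
          have w3 : w = 1 := by omega
          subst w3
          apply a1.1
          omega
        have b2 := hD n (Finset.mem_range.2 a2)
        rw [hM] at b2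
        exact b1.dvd_of_dvd_mul_left b2
      obtain ⟨w, hw⟩ := a3
      have a4 : j.factorial / (n + 1) = p * w := by
        rw [hM, hw, show p * ((n + 1) * w) = (n + 1) * (p * w) by ring]
        exact Nat.mul_div_cancel_left _ (Nat.succ_pos n)
      have a5 : M / (n + 1) = w := by
        rw [hw]; exact Nat.mul_div_cancel_left _ (Nat.succ_pos n)
      rw [a4, a5]
      push_cast
      ring
  set B : ℕ → ℤ := fun s => ∑ n ∈ (Finset.range j).erase (p - 1), ((M / (n + 1) : ℕ) : ℤ) ^ s with hB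
  have h7 : (M : ℤ) ^ s0 * (∑ s ∈ Finset.Icc 1 s0, c s * ((j + 1 : ℕ) : ℤ) ^ s * (p : ℤ) ^ (s0 - s)) +
      (p : ℤ) ^ s0 * (∑ s ∈ Finset.Icc 1 s0, c s * ((j + 1 : ℕ) : ℤ) ^ s * (M : ℤ) ^ (s0 - s) * B s) = 0 := by
    rw [← h5, Finset.mul_sum, Finset.mul_sum, ← Finset.sum_add_distrib]
    apply Finset.sum_congr rfl
    intro s hs
    have hs' := Finset.mem_Icc.1 hs
    rw [h6 s]
    have e1 : ((j.factorial : ℕ) : ℤ) = (p : ℤ) * M := by rw [hM]; push_cast; ring
    have e2 : (M : ℤ) ^ s0 = (M : ℤ) ^ (s0 - s) * (M : ℤ) ^ s := by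
      rw [← pow_add]; congr 1; omega
    have e3 : (p : ℤ) ^ s0 = (p : ℤ) ^ (s0 - s) * (p : ℤ) ^ s := by
      rw [← pow_add]; congr 1; omega
    rw [e1, mul_pow, e2, e3]
    ring
  have h8 : (p : ℤ) ^ s0 ∣ (M : ℤ) ^ s0 * (∑ s ∈ Finset.Icc 1 s0, c s * ((j + 1 : ℕ) : ℤ) ^ s * (p : ℤ) ^ (s0 - s)) := by
    have : (M : ℤ) ^ s0 * (∑ s ∈ Finset.Icc 1 s0, c s * ((j + 1 : ℕ) : ℤ) ^ s * (p : ℤ) ^ (s0 - s)) =
        (p : ℤ) ^ s0 * (-(∑ s ∈ Finset.Icc 1 s0, c s * ((j + 1 : ℕ) : ℤ) ^ s * (M : ℤ) ^ (s0 - s) * B s)) := by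
      linarith
    rw [this]
    exact Dvd.intro _ rfl
  have h9 : IsCoprime ((p : ℤ) ^ s0) ((M : ℤ) ^ s0) := by
    apply IsCoprime.pow
    rw [Nat.isCoprime_iff_coprime]
    exact (hp.coprime_iff_not_dvd).2 hpM
  exact h9.dvd_of_dvd_mul_left h8

lemma hb_levels (s0 : ℕ) (c : ℕ → ℤ) (p : ℕ) (hp : p.Prime)
    (hG : ∀ N : ℕ, p < N → N < 2 * p →
      (p : ℤ) ^ s0 ∣ ∑ s ∈ Finset.Icc 1 s0, c s * (N : ℤ) ^ s * (p : ℤ) ^ (s0 - s)) :
    ∀ j, j ≤ s0 → j ≤ p - 1 → ∀ t ≤ j, (p : ℤ) ^ t ∣ c (s0 - j + t) := by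
  haveI : Fact p.Prime := ⟨hp⟩
  intro j
  induction j with
  | zero =>
    intro _ _ t ht
    have : t = 0 := by omega
    subst this
    simp
  | succ j ih =>
    intro h1 h2
    have ih' := ih (by omega) (by omega)
    -- a = s0 - j
    obtain ⟨a, ha⟩ : ∃ a, s0 = a + 1 + j := ⟨s0 - j - 1, by omega⟩
    have e0 : s0 - j = a + 1 := by omega
    have e0' : s0 - (j + 1) = a := by omega
    rw [e0] at ih'
    rw [e0']
    set e : ℕ → ℤ := fun t => c (a + 1 + t) / (p : ℤ) ^ t with he
    have he2 : ∀ t ≤ j, c (a + 1 + t) = (p : ℤ) ^ t * e t := by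
      intro t ht
      rw [he]
      exact (Int.mul_ediv_cancel' (ih' t ht)).symm
    -- the congruence for the polynomial
    have key : ∀ N : ℕ, p < N → N < 2 * p → (p : ℤ) ∣ ∑ t ∈ Finset.range (j + 1), e t * (N : ℤ) ^ t := by
      intro N hN1 hN2
      have g1 := hG N hN1 hN2
      have g2 : (p : ℤ) ^ (j + 1) ∣ ∑ s ∈ Finset.Icc 1 s0, c s * (N : ℤ) ^ s * (p : ℤ) ^ (s0 - s) :=
        dvd_trans (pow_dvd_pow _ h1) g1
      have g3 : ∑ s ∈ Finset.Icc 1 s0, c s * (N : ℤ) ^ s * (p : ℤ) ^ (s0 - s) =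
          ∑ s ∈ Finset.Icc 1 a, c s * (N : ℤ) ^ s * (p : ℤ) ^ (s0 - s) +
          ∑ t ∈ Finset.range (j + 1), c (a + 1 + t) * (N : ℤ) ^ (a + 1 + t) * (p : ℤ) ^ (s0 - (a + 1 + t)) := by
        have k1 : Finset.Icc 1 s0 = Finset.Ico 1 (s0 + 1) := by
          ext s; simp only [Finset.mem_Icc, Finset.mem_Ico]; omega
        have k2 : Finset.Icc 1 a = Finset.Ico 1 (a + 1) := by
          ext s; simp only [Finset.mem_Icc, Finset.mem_Ico]; omega
        rw [k1, k2, ← Finset.sum_Ico_consecutive _ (show 1 ≤ a + 1 by omega) (show a + 1 ≤ s0 + 1 by omega)]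
        congr 1
        rw [Finset.sum_Ico_eq_sum_range]
        congr 1
        congr 1
        omega
      have g4 : (p : ℤ) ^ (j + 1) ∣ ∑ s ∈ Finset.Icc 1 a, c s * (N : ℤ) ^ s * (p : ℤ) ^ (s0 - s) := by
        apply Finset.dvd_sum
        intro s hs
        have := Finset.mem_Icc.1 hs
        exact Dvd.dvd.mul_left (pow_dvd_pow _ (by omega)) _
      rw [g3] at g2
      have g5 := (dvd_add_right g4).1 g2
      have g6 : ∑ t ∈ Finset.range (j + 1), c (a + 1 + t) * (N : ℤ) ^ (a + 1 + t) * (p : ℤ) ^ (s0 - (a + 1 + t)) =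
          (p : ℤ) ^ j * ((N : ℤ) ^ (a + 1) * ∑ t ∈ Finset.range (j + 1), e t * (N : ℤ) ^ t) := by
        rw [Finset.mul_sum, Finset.mul_sum]
        apply Finset.sum_congr rfl
        intro t ht
        have ht' := Finset.mem_range.1 ht
        rw [he2 t (by omega)]
        have f1 : (p : ℤ) ^ j = (p : ℤ) ^ t * (p : ℤ) ^ (s0 - (a + 1 + t)) := by
          rw [← pow_add]; congr 1; omega
        rw [f1, pow_add]
        ring
      rw [g6, pow_succ] at g5
      have hp0 : (p : ℤ) ^ j ≠ 0 := by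
        have := hp.pos
        positivity
      have g7 := (mul_dvd_mul_iff_left hp0).1 g5
      have hpr : Prime (p : ℤ) := Nat.prime_iff_prime_int.1 hp
      rcases hpr.dvd_or_dvd g7 with h | h
      · exfalso
        have h3 := hpr.dvd_of_dvd_pow h
        have h4 : p ∣ N := by exact_mod_cast h3
        obtain ⟨w, hw⟩ := h4
        have w1 : w < 2 := by
          by_contra hcon
          push Not at hcon
          have : p * 2 ≤ p * w := Nat.mul_le_mul_left p hcon
          omega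
        interval_cases w <;> omega
      · exact h
    -- the polynomial over ZMod p
    have hall : ∀ t ≤ j, (p : ℤ) ∣ e t := by
      set Q : Polynomial (ZMod p) := ∑ t ∈ Finset.range (j + 1), Polynomial.C ((e t : ℤ) : ZMod p) * Polynomial.X ^ t with hQ
      have q1 : Q.natDegree ≤ j := by
        rw [hQ]
        apply Polynomial.natDegree_sum_le_of_forall_le
        intro t ht
        have := Finset.mem_range.1 ht
        refine le_trans (Polynomial.natDegree_C_mul_X_pow_le _ _) (by omega)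
      have q2 : Q = 0 := by
        apply Polynomial.eq_zero_of_natDegree_lt_card_of_eval_eq_zero' Q (Finset.univ.erase 0)
        · intro x hx
          have hx0 : x ≠ 0 := (Finset.mem_erase.1 hx).1
          have v1 : x.val < p := ZMod.val_lt x
          have v2 : 0 < x.val := by
            rcases Nat.eq_zero_or_pos x.val with h | h
            · exact absurd ((ZMod.val_eq_zero x).1 h) hx0
            · exact h
          have v3 := key (p + x.val) (by omega) (by omega)
          have v4 := (ZMod.intCast_zmod_eq_zero_iff_dvd _ p).2 v3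
          rw [hQ, Polynomial.eval_finset_sum]
          rw [← v4, Int.cast_sum]
          apply Finset.sum_congr rfl
          intro t _
          rw [Polynomial.eval_mul, Polynomial.eval_C, Polynomial.eval_pow, Polynomial.eval_X]
          push_cast
          simp
        · rw [Finset.card_erase_of_mem (Finset.mem_univ _), Finset.card_univ, ZMod.card]
          omega
      intro t ht
      have q3 : Q.coeff t = ((e t : ℤ) : ZMod p) := by
        rw [hQ, Polynomial.finset_sum_coeff]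
        simp only [Polynomial.coeff_C_mul_X_pow]
        rw [Finset.sum_ite_eq]
        rw [if_pos (Finset.mem_range.2 (by omega))]
      rw [q2, Polynomial.coeff_zero] at q3
      exact (ZMod.intCast_zmod_eq_zero_iff_dvd _ p).1 q3.symm
    intro t ht
    rcases Nat.eq_zero_or_pos t with h0 | h0
    · subst h0; simp
    · obtain ⟨t', rfl⟩ : ∃ t', t = t' + 1 := ⟨t - 1, by omega⟩
      have r1 := he2 t' (by omega)
      have r2 := hall t' (by omega)
      have r3 : a + (t' + 1) = a + 1 + t' := by ring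
      rw [r3, r1, pow_succ]
      exact mul_dvd_mul_left _ r2

end Pool.Agent.Helper43.OD
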