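import Mathlib
import Pool.Agent.Helper46.HB.A

set_option autoImplicit false

namespace Pool.Agent.Helper43.OD

open Finset

lemma hb_all (s0 : ℕ) (c : ℕ → ℤ) (p : ℕ) (hp : p.Prime)
    (hT : ∀ j, p ≤ j → j ≤ 2 * p - 2 → T s0 0 c j = 0) :
    ∀ j, j ≤ s0 → j ≤ p - 1 → ∀ t ≤ j, (p : ℤ) ^ t ∣ c (s0 - j + t) := by
  apply hb_levels s0 c p hp
  intro N hN1 hN2
  obtain ⟨j, rfl⟩ : ∃ j, N = j + 1 := ⟨N - 1, by omega⟩
  exact hb_cong s0 c p j hp (by omega) (by omega) (hT j (by omega) (by omega))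

/-- the top coefficient is divisible by p^min(p-1, s0) -/
lemma hb_top (s0 : ℕ) (c : ℕ → ℤ) (p : ℕ) (hp : p.Prime)
    (hT : ∀ j, p ≤ j → j ≤ 2 * p - 2 → T s0 0 c j = 0) (y : ℕ) (hy1 : y ≤ s0) (hy2 : y ≤ p - 1) :
    (p : ℤ) ^ y ∣ c s0 := by
  have h := hb_all s0 c p hp hT y hy1 hy2 y (le_refl y)
  have e : s0 - y + y = s0 := by omega
  rwa [e] at h

lemma hb_T_mul (s0 : ℕ) (c c' : ℕ → ℤ) (g : ℤ) (h : ∀ s ∈ Finset.Icc 1 s0, c s = g * c' s) (j : ℕ) :
    T s0 0 c j = g * T s0 0 c' j := by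
  unfold T
  rw [mul_sub, Finset.mul_sum]
  congr 1
  · apply Finset.sum_congr rfl
    intro s hs
    rw [h s hs]
    push_cast
    ring
  · simp

/-- the first nonvanishing coefficient is at most 4 s0 - 2 -/
lemma hb_first (s0 : ℕ) (c : ℕ → ℤ) (h1 : 1 ≤ s0) (hc : c s0 ≠ 0) :
    ∃ j ≤ 4 * s0 - 2, T s0 0 c j ≠ 0 := by
  by_contra hcon
  push Not at hcon
  obtain ⟨p, hp, hp1, hp2⟩ := Nat.exists_prime_lt_and_le_two_mul s0 (by omega)
  have hstep : ∀ c' : ℕ → ℤ, (∀ j ≤ 4 * s0 - 2, T s0 0 c' j = 0) → ∀ s ∈ Finset.Icc 1 s0, (p : ℤ) ∣ c' s := by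
    intro c' hc' s hs
    have hs' := Finset.mem_Icc.1 hs
    have h := hb_all s0 c' p hp (fun j _ hj => hc' j (by omega)) s0 (le_refl s0) (by omega) s hs'.2
    have e : s0 - s0 + s = s := by omega
    rw [e] at h
    exact dvd_trans (dvd_pow_self _ (by omega)) h
  have hall : ∀ m : ℕ, ∀ s ∈ Finset.Icc 1 s0, (p : ℤ) ^ m ∣ c s := by
    intro m
    induction m with
    | zero => intro s _; simp
    | succ m ih =>
      set c' : ℕ → ℤ := fun s => c s / (p : ℤ) ^ m with hc'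
      have h2 : ∀ s ∈ Finset.Icc 1 s0, c s = (p : ℤ) ^ m * c' s := by
        intro s hs
        exact (Int.mul_ediv_cancel' (ih s hs)).symm
      have h3 : ∀ j ≤ 4 * s0 - 2, T s0 0 c' j = 0 := by
        intro j hj
        have h4 := hb_T_mul s0 c c' ((p : ℤ) ^ m) h2 j
        rw [hcon j hj] at h4
        have hp0 : (((p : ℤ) ^ m : ℤ) : ℝ) ≠ 0 := by
          have := hp.pos
          push_cast
          positivity
        rcases mul_eq_zero.1 h4.symm with h5 | h5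
        · exact absurd h5 hp0
        · exact h5
      intro s hs
      have h5 := hstep c' h3 s hs
      rw [h2 s hs, pow_succ]
      exact mul_dvd_mul_left _ h5
  have h6 := hall (c s0).natAbs s0 (Finset.mem_Icc.2 ⟨h1, le_refl s0⟩)
  have h7 : p ^ (c s0).natAbs ∣ (c s0).natAbs := by
    have := Int.natAbs_dvd_natAbs.2 h6
    rw [Int.natAbs_pow] at this
    simpa using this
  have h8 := Nat.le_of_dvd (Int.natAbs_pos.2 hc) h7
  have h9 : (c s0).natAbs < p ^ (c s0).natAbs := Nat.lt_pow_self hp.one_lt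
  omega

/-- if the coefficients vanish for all j < i, the top coefficient is large -/
lemma hb_log (s0 : ℕ) (c : ℕ → ℤ) (hc : c s0 ≠ 0) (i : ℕ) (hi : ∀ j < i, T s0 0 c j = 0)
    (x y : ℕ) (hx : 2 * x ≤ i + 1) (hy : y ≤ s0) (hyx : y ≤ x) :
    (y : ℝ) * (Chebyshev.theta x - Chebyshev.theta y) ≤ Real.log |(c s0 : ℝ)| := by
  set A := (Finset.Ioc y x).filter Nat.Prime with hA
  have h1 : ∏ p ∈ A, (p : ℤ) ^ y ∣ c s0 := by
    apply Finset.prod_dvd_of_coprime
    · intro p hp q hq hpq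
      have a1 := (Finset.mem_filter.1 (Finset.mem_coe.1 hp)).2
      have a2 := (Finset.mem_filter.1 (Finset.mem_coe.1 hq)).2
      apply IsCoprime.pow
      rw [Nat.isCoprime_iff_coprime]
      exact (Nat.coprime_primes a1 a2).2 hpq
    · intro p hp
      have a1 := Finset.mem_filter.1 hp
      have a2 := Finset.mem_Ioc.1 a1.1
      exact hb_top s0 c p a1.2 (fun j _ hj => hi j (by have := a1.2.pos; omega)) y hy (by omega)
  have h2 : ((∏ p ∈ A, (p : ℤ) ^ y : ℤ) : ℝ) ≤ |(c s0 : ℝ)| := by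
    have b1 := Int.le_of_dvd (abs_pos.2 hc) ((dvd_abs _ _).2 h1)
    exact_mod_cast b1
  have h3 : (0 : ℝ) < ((∏ p ∈ A, (p : ℤ) ^ y : ℤ) : ℝ) := by
    rw [Int.cast_prod]
    apply Finset.prod_pos
    intro p hp
    have a1 := (Finset.mem_filter.1 hp).2.pos
    push_cast
    positivity
  have h4 := Real.log_le_log h3 h2
  refine le_trans (le_of_eq ?_) h4
  rw [Int.cast_prod, Real.log_prod]
  · have k1 : ∀ p ∈ A, Real.log (((p : ℤ) ^ y : ℤ) : ℝ) = y * Real.log p := by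
      intro p _
      push_cast
      rw [Real.log_pow]
    rw [Finset.sum_congr rfl k1, ← Finset.mul_sum]
    congr 1
    unfold Chebyshev.theta
    rw [Nat.floor_natCast, Nat.floor_natCast, Finset.sum_filter, Finset.sum_filter, hA, Finset.sum_filter]
    rw [← Finset.sum_Ioc_consecutive _ (Nat.zero_le y) hyx]
    ring
  · intro p hp
    have a1 := (Finset.mem_filter.1 hp).2.pos
    push_cast
    positivity

end Pool.Agent.Helper43.OD
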