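import Mathlib
import Pool.Agent.Helper46.HB.B

set_option autoImplicit false

namespace Pool.Agent.Helper43.OD

open Finset

lemma hb_quad : ∃ C : ℝ, 1 ≤ C ∧ ∀ (s0 : ℕ) (c : ℕ → ℤ) (H : ℝ), 1 ≤ s0 → c s0 ≠ 0 → |(c s0 : ℝ)| ≤ H →
    ∀ i : ℕ, i ≤ 4 * s0 - 2 → (∀ j < i, T s0 0 c j = 0) →
    ((i + 2 : ℕ) : ℝ) ^ 2 ≤ C * Real.log (2 * H) := by
  obtain ⟨C1, hC1, hC1'⟩ := cheb
  obtain ⟨K, hK⟩ := exists_nat_ge (4 * C1)
  have hK4 : (4 : ℝ) ≤ K := by linarith
  have hK4' : 4 ≤ K := by exact_mod_cast hK4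
  refine ⟨8 * (4 * K * C1 + 8 * K ^ 2) + 16, ?_, ?_⟩
  · have : 0 ≤ 4 * (K : ℝ) * C1 := by positivity
    nlinarith [sq_nonneg (K : ℝ)]
  intro s0 c H h1 hc hH i hi1 hi2
  have hH1 : 1 ≤ H := by
    have := Int.one_le_abs hc
    have h2 : (1 : ℝ) ≤ |(c s0 : ℝ)| := by exact_mod_cast this
    linarith
  have hl2' : (0.69 : ℝ) ≤ Real.log 2 := by have := Real.log_two_gt_d9; linarith
  have hlH : 0 ≤ Real.log H := Real.log_nonneg hH1
  have hell : Real.log (2 * H) = Real.log 2 + Real.log H := Real.log_mul (by norm_num) (by linarith)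
  set x : ℕ := (i + 1) / 2 with hx
  have hx1 : 2 * x ≤ i + 1 := Nat.mul_div_le _ _
  have hx2 : i ≤ 2 * x := by omega
  have hx3 : x ≤ 2 * s0 - 1 := by omega
  set y : ℕ := x / K with hy
  have hy1 : y ≤ s0 := by
    have a1 : y ≤ x / 4 := Nat.div_le_div_left hK4' (by norm_num)
    omega
  have hyx : y ≤ x := Nat.div_le_self _ _
  have hlog := hb_log s0 c hc i hi2 x y hx1 hy1 hyx
  have hlog2 : (y : ℝ) * (Chebyshev.theta x - Chebyshev.theta y) ≤ Real.log H :=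
    le_trans hlog (Real.log_le_log (by
      have := Int.one_le_abs hc
      have h2 : (1 : ℝ) ≤ |(c s0 : ℝ)| := by exact_mod_cast this
      linarith) hH)
  have hKpos : (0 : ℝ) < K := by linarith
  have hxsq : (x : ℝ) ^ 2 ≤ (4 * K * C1) * Real.log H + 4 * K ^ 2 := by
    by_cases hxK : x < 2 * K
    · have e1 : (x : ℝ) ≤ 2 * K := by exact_mod_cast hxK.le
      have e2 : (x : ℝ) ^ 2 ≤ (2 * K) ^ 2 := pow_le_pow_left₀ (Nat.cast_nonneg _) e1 2
      have e3 : 0 ≤ (4 * K * C1) * Real.log H := by positivity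
      nlinarith
    · push Not at hxK
      have e1 : (2 : ℝ) * K ≤ x := by exact_mod_cast hxK
      -- lower bound for y
      have e2 : (x : ℝ) ≤ K * ((y : ℝ) + 1) := by
        have := Nat.lt_mul_div_succ x (show 0 < K by omega)
        have h3 : x ≤ K * (y + 1) := this.le
        exact_mod_cast h3
      have e3 : (x : ℝ) / (2 * K) ≤ y := by
        rw [div_le_iff₀ (by positivity)]
        nlinarith
      -- upper bound for y
      have e4 : (y : ℝ) * (4 * C1) ≤ x := by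
        have h3 : y * K ≤ x := Nat.div_mul_le_self _ _
        have h4 : (y : ℝ) * K ≤ x := by exact_mod_cast h3
        have h5 : (y : ℝ) * (4 * C1) ≤ y * K := mul_le_mul_of_nonneg_left hK (Nat.cast_nonneg _)
        linarith
      have e5 : Chebyshev.theta y ≤ 1.4 * y := by
        have h3 := Chebyshev.theta_le_log4_mul_x (x := (y : ℝ)) (Nat.cast_nonneg y)
        have h4 : Real.log 4 ≤ 1.4 := by
          have : Real.log 4 = 2 * Real.log 2 := by
            rw [show (4 : ℝ) = 2 ^ 2 by norm_num, Real.log_pow]; norm_num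
          rw [this]
          have := Real.log_two_lt_d9
          linarith
        have h5 : Real.log 4 * y ≤ 1.4 * y := mul_le_mul_of_nonneg_right h4 (Nat.cast_nonneg _)
        linarith
      have e6 := hC1' x
      -- C1 (theta x - theta y) >= x/2
      have e7 : (x : ℝ) / 2 ≤ C1 * (Chebyshev.theta x - Chebyshev.theta y) := by
        have h3 : C1 * Chebyshev.theta y ≤ C1 * (1.4 * y) := mul_le_mul_of_nonneg_left e5 (by linarith)
        have h4 : C1 * (1.4 * y) ≤ 0.35 * x := by linarith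
        have h5 : C1 ≤ (x : ℝ) / 8 := by linarith
        linarith
      have e8 : 0 ≤ Chebyshev.theta x - Chebyshev.theta y := by
        by_contra hcon
        push Not at hcon
        have h3 : C1 * (Chebyshev.theta x - Chebyshev.theta y) < 0 := mul_neg_of_pos_of_neg (by linarith) hcon
        have h4 : (0 : ℝ) ≤ (x : ℝ) / 2 := by positivity
        linarith
      have e9 : (x : ℝ) ≤ y * (2 * K) := by
        rw [div_le_iff₀ (by positivity)] at e3
        exact e3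
      calc (x : ℝ) ^ 2 = 2 * (x * (x / 2)) := by ring
        _ ≤ 2 * ((y * (2 * K)) * (C1 * (Chebyshev.theta x - Chebyshev.theta y))) := by
            apply mul_le_mul_of_nonneg_left _ (by norm_num)
            exact mul_le_mul e9 e7 (by positivity) (by positivity)
        _ = (4 * K * C1) * (y * (Chebyshev.theta x - Chebyshev.theta y)) := by ring
        _ ≤ (4 * K * C1) * Real.log H := mul_le_mul_of_nonneg_left hlog2 (by positivity)
        _ ≤ _ := by nlinarith [sq_nonneg (K : ℝ)]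
  have hi3 : ((i + 2 : ℕ) : ℝ) ≤ 2 * x + 2 := by
    have : i + 2 ≤ 2 * x + 2 := by omega
    exact_mod_cast this
  have hi4 : ((i + 2 : ℕ) : ℝ) ^ 2 ≤ 8 * (x : ℝ) ^ 2 + 8 := by
    have e1 : ((i + 2 : ℕ) : ℝ) ^ 2 ≤ (2 * (x : ℝ) + 2) ^ 2 := pow_le_pow_left₀ (Nat.cast_nonneg _) hi3 2
    nlinarith [sq_nonneg ((x : ℝ) - 1)]
  have hl1 : 1 ≤ 2 * Real.log (2 * H) := by rw [hell]; linarith
  have hlHl : Real.log H ≤ Real.log (2 * H) := by rw [hell]; linarith
  have f1 : (4 * K * C1) * Real.log H ≤ (4 * K * C1) * Real.log (2 * H) :=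
    mul_le_mul_of_nonneg_left hlHl (by positivity)
  have f2 : 4 * (K : ℝ) ^ 2 * 1 ≤ 4 * (K : ℝ) ^ 2 * (2 * Real.log (2 * H)) :=
    mul_le_mul_of_nonneg_left hl1 (by positivity)
  calc ((i + 2 : ℕ) : ℝ) ^ 2 ≤ 8 * (x : ℝ) ^ 2 + 8 := hi4
    _ ≤ 8 * ((4 * K * C1) * Real.log (2 * H) + 4 * K ^ 2 * (2 * Real.log (2 * H))) + 8 * (2 * Real.log (2 * H)) := by
        linarith
    _ = (8 * (4 * K * C1 + 8 * K ^ 2) + 16) * Real.log (2 * H) := by ring

theorem height_bound_linear : ∃ C : ℝ, ∀ (k S : ℕ) (c0 : ℤ) (c : ℕ → ℤ) (H : ℝ),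
    1 ≤ S → S + 2 ≤ k → (c0 ≠ 0 ∨ ∃ s ∈ Finset.Icc 1 S, c s ≠ 0) →
    |(c0 : ℝ)| ≤ H → (∀ s ∈ Finset.Icc 1 S, |(c s : ℝ)| ≤ H) →
    ∑ s ∈ Finset.Icc 1 S, (c s : ℝ) * ∑' p : ℕ × ℕ,
        (1 : ℝ) / ((((p.1 + p.2 + 2 : ℕ) : ℝ) ^ (k - s)) * (((p.2 + 1 : ℕ) : ℝ) ^ s)) =
      c0 * ∑' n : ℕ, (1 : ℝ) / ((n + 1 : ℕ) : ℝ) ^ k →
    (k : ℝ) ≤ C * S * Real.log (2 * H) := by
  obtain ⟨C3, hC3, hC3'⟩ := hb_quad
  refine ⟨70 + 11 * C3, ?_⟩
  intro k S c0 c H hS hk hne h0 hc hrel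
  have hH1 : 1 ≤ H := by
    rcases hne with h | ⟨s, hs, h⟩
    · have := Int.one_le_abs h
      have h2 : (1 : ℝ) ≤ |(c0 : ℝ)| := by exact_mod_cast this
      linarith
    · have := Int.one_le_abs h
      have h2 : (1 : ℝ) ≤ |(c s : ℝ)| := by exact_mod_cast this
      linarith [hc s hs]
  have hS1 : (1 : ℝ) ≤ (S : ℝ) := by exact_mod_cast hS
  have hl2' : (0.69 : ℝ) ≤ Real.log 2 := by have := Real.log_two_gt_d9; linarith
  have hlH : 0 ≤ Real.log H := Real.log_nonneg hH1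
  have hell : Real.log (2 * H) = Real.log 2 + Real.log H := Real.log_mul (by norm_num) (by linarith)
  set l : ℝ := Real.log (2 * H) with hl
  have hl0 : (0.69 : ℝ) ≤ l := by linarith
  have hSl : 0 ≤ (S : ℝ) * l := by positivity
  by_cases hk3 : S + 3 ≤ k
  swap
  · have hk2 : k = S + 2 := by omega
    have hkr : (k : ℝ) = S + 2 := by rw [hk2]; push_cast; ring
    rw [hkr]
    nlinarith
  have hsum := rel_hasSum k S c0 c hk hrel
  by_cases hc0 : c0 = 0
  swap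
  · -- i = 0
    have hT0 : T S c0 c 0 ≠ 0 := by
      rw [T_zero]; simpa using hc0
    have hmain := main_log k S c0 c H hS hk3 h0 hc hH1 hsum 0 (fun j hj => absurd hj (Nat.not_lt_zero j)) hT0
    rw [← hl] at hmain
    push_cast at hmain
    nlinarith
  subst hc0
  have hne' : ∃ s ∈ Finset.Icc 1 S, c s ≠ 0 := by
    rcases hne with h | h
    · exact absurd rfl h
    · exact h
  obtain ⟨s0, a1, a2, a3, a4⟩ := exists_top S c hne'
  obtain ⟨j0, hj0, hj0'⟩ := hb_first s0 c a1 a3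
  have hex : ∃ i, T s0 0 c i ≠ 0 := ⟨j0, hj0'⟩
  classical
  set i := Nat.find hex with hi
  have hi1 : T s0 0 c i ≠ 0 := Nat.find_spec hex
  have hi2 : ∀ j < i, T s0 0 c j = 0 := by
    intro j hj
    have := Nat.find_min hex hj
    push Not at this
    exact this
  have hi3 : i ≤ 4 * s0 - 2 := le_trans (Nat.find_min' hex hj0') hj0
  have hq := hC3' s0 c H a1 a3 (hc s0 (Finset.mem_Icc.2 ⟨a1, a2⟩)) i hi3 hi2
  rw [← hl] at hq
  have hmain := main_log k S 0 c H hS hk3 h0 hc hH1 hsum i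
    (fun j hj => by rw [← hb_T_top S s0 c a2 a4]; exact hi2 j hj)
    (by rw [← hb_T_top S s0 c a2 a4]; exact hi1)
  rw [← hl] at hmain
  have hi4 : ((i + 2 : ℕ) : ℝ) ≤ 4 * S := by
    have : i + 2 ≤ 4 * S := by omega
    exact_mod_cast this
  have hi5 : (0 : ℝ) ≤ ((i + 2 : ℕ) : ℝ) := Nat.cast_nonneg _
  calc (k : ℝ) ≤ ((i + 2 : ℕ) : ℝ) * (l + 11 * S * ((i + 2 : ℕ) : ℝ)) := hmain
    _ = ((i + 2 : ℕ) : ℝ) * l + 11 * S * ((i + 2 : ℕ) : ℝ) ^ 2 := by ring
    _ ≤ 4 * S * l + 11 * S * (C3 * l) := by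
        have e1 := mul_le_mul_of_nonneg_right hi4 (show 0 ≤ l by linarith)
        have e2 := mul_le_mul_of_nonneg_left hq (show (0 : ℝ) ≤ 11 * S by positivity)
        linarith
    _ ≤ (70 + 11 * C3) * S * l := by nlinarith

end Pool.Agent.Helper43.OD
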