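import Mathlib
import Pool.Agent.Helper43.OD.Basic

set_option autoImplicit false

namespace Pool.Agent.Helper46.HB

open Finset Pool.Agent.Helper43.OD

/-- the bracket at M = i + 1: M^2 h_(M-1)(s+2) - 4 h_(M-1)(s) is nonnegative, and positive for M >= 3 -/
lemma d_bracket (i s : ℕ) (hs : 1 ≤ s) (hi : 2 ≤ i) :
    4 * h i s < ((i + 1 : ℕ) : ℝ) ^ 2 * h i (s + 2) := by
  obtain ⟨l, rfl⟩ : ∃ l, i = l + 1 := ⟨i - 1, by omega⟩
  have hM : (3 : ℝ) ≤ ((l + 1 + 1 : ℕ) : ℝ) := by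
    have : 3 ≤ l + 1 + 1 := by omega
    exact_mod_cast this
  set M : ℝ := ((l + 1 + 1 : ℕ) : ℝ) with hMdef
  have hMpos : 0 < M := by linarith
  have h1 : M ^ 2 * h (l + 1) (s + 2) - 4 * h (l + 1) s =
      ∑ n ∈ Finset.range (l + 1), (M ^ 2 - 4 * ((n + 1 : ℕ) : ℝ) ^ 2) / ((n + 1 : ℕ) : ℝ) ^ (s + 2) := by
    unfold h
    rw [Finset.mul_sum, Finset.mul_sum, ← Finset.sum_sub_distrib]
    apply Finset.sum_congr rfl
    intro n _
    have hn : ((n + 1 : ℕ) : ℝ) ≠ 0 := by positivity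
    rw [pow_add]
    field_simp
  have h2 : ∀ n ∈ Finset.range l, -(6 / M) ≤ (M ^ 2 - 4 * ((n + 1 + 1 : ℕ) : ℝ) ^ 2) / ((n + 1 + 1 : ℕ) : ℝ) ^ (s + 2) := by
    intro n hn
    have hn' := Finset.mem_range.1 hn
    set x : ℝ := ((n + 1 + 1 : ℕ) : ℝ) with hx
    have hx2 : (2 : ℝ) ≤ x := by
      have : 2 ≤ n + 1 + 1 := by omega
      rw [hx]; exact_mod_cast this
    have hxM : x + 1 ≤ M := by
      have : n + 1 + 1 + 1 ≤ l + 1 + 1 := by omega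
      rw [hx, hMdef]; exact_mod_cast this
    have hxp : 0 < x := by linarith
    have hM6 : 0 ≤ 6 / M := by positivity
    rcases le_or_gt (2 * x) M with hc | hc
    · have e1 : 0 ≤ M ^ 2 - 4 * x ^ 2 := by nlinarith
      have e2 : 0 ≤ (M ^ 2 - 4 * x ^ 2) / x ^ (s + 2) := by positivity
      linarith
    · -- 2x > M
      have e1 : x ^ 3 ≤ x ^ (s + 2) := pow_le_pow_right₀ (by linarith) (by omega)
      have e2 : 4 * x ^ 2 - M ^ 2 ≤ 3 * x ^ 2 := by nlinarith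
      have e3 : (4 * x ^ 2 - M ^ 2) / x ^ (s + 2) ≤ 6 / M := by
        rw [div_le_div_iff₀ (by positivity) hMpos]
        have e4 : (4 * x ^ 2 - M ^ 2) * M ≤ 3 * x ^ 2 * M := mul_le_mul_of_nonneg_right e2 hMpos.le
        have e5 : 3 * x ^ 2 * M ≤ 6 * x ^ 3 := by nlinarith [sq_nonneg x]
        linarith
      have e6 : (M ^ 2 - 4 * x ^ 2) / x ^ (s + 2) = -((4 * x ^ 2 - M ^ 2) / x ^ (s + 2)) := by ring
      rw [e6]
      linarith
  have h3 : ∑ n ∈ Finset.range (l + 1), (M ^ 2 - 4 * ((n + 1 : ℕ) : ℝ) ^ 2) / ((n + 1 : ℕ) : ℝ) ^ (s + 2) =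
      ∑ n ∈ Finset.range l, (M ^ 2 - 4 * ((n + 1 + 1 : ℕ) : ℝ) ^ 2) / ((n + 1 + 1 : ℕ) : ℝ) ^ (s + 2) + (M ^ 2 - 4) := by
    rw [Finset.sum_range_succ']
    congr 1
    simp
  have h4 : ∑ n ∈ Finset.range l, (M ^ 2 - 4 * ((n + 1 + 1 : ℕ) : ℝ) ^ 2) / ((n + 1 + 1 : ℕ) : ℝ) ^ (s + 2) ≥
      ∑ n ∈ Finset.range l, (-(6 / M)) := Finset.sum_le_sum h2
  rw [Finset.sum_const, Finset.card_range, nsmul_eq_mul] at h4
  have h5 : (l : ℝ) = M - 2 := by rw [hMdef]; push_cast; ring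
  have h6 : (l : ℝ) * -(6 / M) = -(6 * (M - 2) / M) := by rw [h5]; ring
  rw [h6] at h4
  have h7 : 6 * (M - 2) / M < M ^ 2 - 4 := by
    rw [div_lt_iff₀ hMpos]
    nlinarith [mul_nonneg (show (0:ℝ) ≤ M - 3 by linarith) (show (0:ℝ) ≤ M by linarith), sq_nonneg (M - 3)]
  linarith

lemma d_ratio (r s : ℕ) (hr : 2 ≤ r) (hs : 1 ≤ s) :
    4 * (∑' p : ℕ × ℕ, dt (r + 2) s p) < ∑' p : ℕ × ℕ, dt r (s + 2) p := by
  have h1 := (dz_eq (r + 2) s (by omega) hs).mul_left 4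
  have h2 := dz_eq r (s + 2) hr (by omega)
  have h3 : ∀ i : ℕ, 4 * (1 / ((i + 1 : ℕ) : ℝ) ^ (r + 2) * h i s) ≤ 1 / ((i + 1 : ℕ) : ℝ) ^ r * h i (s + 2) := by
    intro i
    have hx : (0 : ℝ) < ((i + 1 : ℕ) : ℝ) := by positivity
    have e1 : 4 * (1 / ((i + 1 : ℕ) : ℝ) ^ (r + 2) * h i s) =
        (1 / ((i + 1 : ℕ) : ℝ) ^ (r + 2)) * (4 * h i s) := by ring
    have e2 : 1 / ((i + 1 : ℕ) : ℝ) ^ r * h i (s + 2) =
        (1 / ((i + 1 : ℕ) : ℝ) ^ (r + 2)) * (((i + 1 : ℕ) : ℝ) ^ 2 * h i (s + 2)) := by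
      rw [pow_add]; field_simp
    rw [e1, e2]
    apply mul_le_mul_of_nonneg_left _ (by positivity)
    rcases Nat.lt_or_ge i 2 with hi | hi
    · interval_cases i
      · simp [h]
      · simp [h]
        norm_num
    · exact (d_bracket i s hs hi).le
  have h4 : 4 * (1 / ((2 + 1 : ℕ) : ℝ) ^ (r + 2) * h 2 s) < 1 / ((2 + 1 : ℕ) : ℝ) ^ r * h 2 (s + 2) := by
    have e1 : 4 * (1 / ((2 + 1 : ℕ) : ℝ) ^ (r + 2) * h 2 s) =
        (1 / ((2 + 1 : ℕ) : ℝ) ^ (r + 2)) * (4 * h 2 s) := by ring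
    have e2 : 1 / ((2 + 1 : ℕ) : ℝ) ^ r * h 2 (s + 2) =
        (1 / ((2 + 1 : ℕ) : ℝ) ^ (r + 2)) * (((2 + 1 : ℕ) : ℝ) ^ 2 * h 2 (s + 2)) := by
      rw [pow_add]; field_simp
    rw [e1, e2]
    exact mul_lt_mul_of_pos_left (d_bracket 2 s hs (le_refl 2)) (by positivity)
  exact hasSum_lt h3 h4 h1 h2

/-- Abel summation -/
lemma d_abel (d w : ℕ → ℝ) (n : ℕ) :
    ∑ a ∈ Finset.Icc 1 (n + 1), d a * w a =
      ∑ j ∈ Finset.Icc 1 n, (∑ a ∈ Finset.Icc 1 j, d a) * (w j - w (j + 1)) +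
        (∑ a ∈ Finset.Icc 1 (n + 1), d a) * w (n + 1) := by
  induction n with
  | zero => simp
  | succ n ih =>
    have e1 := Finset.sum_Icc_succ_top (show 1 ≤ n + 1 + 1 by omega) (fun a => d a * w a)
    have e2 := Finset.sum_Icc_succ_top (show 1 ≤ n + 1 by omega)
      (fun j => (∑ a ∈ Finset.Icc 1 j, d a) * (w j - w (j + 1)))
    have e3 := Finset.sum_Icc_succ_top (show 1 ≤ n + 1 + 1 by omega) d
    rw [e1, e2, ih, e3]
    ring

/-- if all partial sums are nonnegative and the weighted sum with strictly decreasing positive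
weights vanishes, everything vanishes -/
lemma d_sign (d w : ℕ → ℝ) (n : ℕ) (hw : ∀ j ∈ Finset.Icc 1 n, w (j + 1) < w j) (hw1 : 0 < w (n + 1))
    (h0 : ∑ a ∈ Finset.Icc 1 (n + 1), d a * w a = 0)
    (hS : ∀ j ∈ Finset.Icc 1 (n + 1), 0 ≤ ∑ a ∈ Finset.Icc 1 j, d a) :
    ∀ a ∈ Finset.Icc 1 (n + 1), d a = 0 := by
  rw [d_abel] at h0
  have h1 : ∀ j ∈ Finset.Icc 1 n, 0 ≤ (∑ a ∈ Finset.Icc 1 j, d a) * (w j - w (j + 1)) := by
    intro j hj
    have hj' := Finset.mem_Icc.1 hj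
    exact mul_nonneg (hS j (Finset.mem_Icc.2 ⟨hj'.1, by omega⟩)) (by linarith [hw j hj])
  have h2 : 0 ≤ (∑ a ∈ Finset.Icc 1 (n + 1), d a) * w (n + 1) :=
    mul_nonneg (hS (n + 1) (Finset.mem_Icc.2 ⟨by omega, le_refl _⟩)) hw1.le
  have h3 := Finset.sum_nonneg h1
  have h4 : ∑ j ∈ Finset.Icc 1 n, (∑ a ∈ Finset.Icc 1 j, d a) * (w j - w (j + 1)) = 0 := by linarith
  have h5 : (∑ a ∈ Finset.Icc 1 (n + 1), d a) * w (n + 1) = 0 := by linarith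
  have h6 := (Finset.sum_eq_zero_iff_of_nonneg h1).1 h4
  have h7 : ∀ j ∈ Finset.Icc 1 (n + 1), ∑ a ∈ Finset.Icc 1 j, d a = 0 := by
    intro j hj
    have hj' := Finset.mem_Icc.1 hj
    rcases Nat.lt_or_ge n j with hlt | hge
    · have : j = n + 1 := by omega
      subst this
      rcases mul_eq_zero.1 h5 with h | h
      · exact h
      · exact absurd h hw1.ne'
    · have hj2 : j ∈ Finset.Icc 1 n := Finset.mem_Icc.2 ⟨hj'.1, hge⟩
      rcases mul_eq_zero.1 (h6 j hj2) with h | h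
      · exact h
      · have := hw j hj2
        linarith
  intro a ha
  have ha' := Finset.mem_Icc.1 ha
  obtain ⟨b, rfl⟩ : ∃ b, a = b + 1 := ⟨a - 1, by omega⟩
  have h8 := h7 (b + 1) ha
  rw [Finset.sum_Icc_succ_top (by omega)] at h8
  rcases Nat.eq_zero_or_pos b with hb | hb
  · subst hb
    simpa using h8
  · have h9 := h7 b (Finset.mem_Icc.2 ⟨hb, by omega⟩)
    linarith

/-- every real relation among zeta(3,k-3), zeta(5,k-5), ..., zeta(k-1,1), k = 2m -/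
theorem coefficient_growth : ∀ (m : ℕ) (c : ℕ → ℝ),
    ∑ a ∈ Finset.Icc 1 (m - 1), c a * (∑' p : ℕ × ℕ, (1 : ℝ) / ((((p.1 + p.2 + 2 : ℕ) : ℝ) ^ (2 * a + 1)) *
            (((p.2 + 1 : ℕ) : ℝ) ^ (2 * m - (2 * a + 1))))) = 0 →
    (∃ a ∈ Finset.Icc 1 (m - 1), c a ≠ 0) →
    (∃ j ∈ Finset.Icc 1 (m - 1), ∑ a ∈ Finset.Icc 1 j, c a / 4 ^ a < 0) ∧
    (∃ j ∈ Finset.Icc 1 (m - 1), 0 < ∑ a ∈ Finset.Icc 1 j, c a / 4 ^ a) := by
  -- one half
  have half : ∀ (m : ℕ) (c : ℕ → ℝ),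
      ∑ a ∈ Finset.Icc 1 (m - 1), c a * (∑' p : ℕ × ℕ, dt (2 * a + 1) (2 * m - (2 * a + 1)) p) = 0 →
      (∃ a ∈ Finset.Icc 1 (m - 1), c a ≠ 0) →
      (∃ j ∈ Finset.Icc 1 (m - 1), ∑ a ∈ Finset.Icc 1 j, c a / 4 ^ a < 0) := by
    intro m c h0 hne
    by_contra hcon
    push Not at hcon
    obtain ⟨b, hb, hb2⟩ := hne
    have hb' := Finset.mem_Icc.1 hb
    obtain ⟨n, rfl⟩ : ∃ n, m = n + 2 := ⟨m - 2, by omega⟩
    have em : n + 2 - 1 = n + 1 := by omega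
    rw [em] at h0 hcon hb
    set w : ℕ → ℝ := fun a => 4 ^ a * (∑' p : ℕ × ℕ, dt (2 * a + 1) (2 * (n + 2) - (2 * a + 1)) p) with hw
    have h1 : ∑ a ∈ Finset.Icc 1 (n + 1), (c a / 4 ^ a) * w a = 0 := by
      rw [← h0]
      apply Finset.sum_congr rfl
      intro a _
      rw [hw]
      field_simp
    have h2 : ∀ j ∈ Finset.Icc 1 n, w (j + 1) < w j := by
      intro j hj
      have hj' := Finset.mem_Icc.1 hj
      have e1 := d_ratio (2 * j + 1) (2 * (n + 2) - (2 * j + 1) - 2) (by omega) (by omega)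
      have e2 : 2 * (n + 2) - (2 * j + 1) - 2 + 2 = 2 * (n + 2) - (2 * j + 1) := by omega
      have e3 : 2 * (n + 2) - (2 * j + 1) - 2 = 2 * (n + 2) - (2 * (j + 1) + 1) := by omega
      have e4 : 2 * j + 1 + 2 = 2 * (j + 1) + 1 := by ring
      rw [e2, e3, e4] at e1
      rw [hw]
      simp only
      rw [pow_succ, mul_assoc]
      exact mul_lt_mul_of_pos_left e1 (by positivity)
    have h3 : 0 < w (n + 1) := by
      rw [hw]
      simp only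
      apply mul_pos (by positivity)
      have e1 : 2 * (n + 2) - (2 * (n + 1) + 1) = 1 := by omega
      rw [e1]
      have hs := dt_summable (2 * (n + 1) + 1) 1 (by omega) (le_refl 1)
      apply hs.tsum_pos (dt_nonneg _ _) (0, 0)
      unfold dt
      positivity
    have h4 := d_sign (fun a => c a / 4 ^ a) w n h2 h3 h1 hcon
    have h5 : c b / 4 ^ b = 0 := h4 b hb
    rcases div_eq_zero_iff.1 h5 with h | h
    · exact hb2 h
    · exact absurd h (by positivity)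
  intro m c h0 hne
  refine ⟨half m c h0 hne, ?_⟩
  have h1 := half m (fun a => - c a) (by
    simp only [neg_mul]
    rw [Finset.sum_neg_distrib, neg_eq_zero]
    exact h0) (by
    obtain ⟨b, hb, hb2⟩ := hne
    exact ⟨b, hb, neg_ne_zero.2 hb2⟩)
  obtain ⟨j, hj, hj2⟩ := h1
  refine ⟨j, hj, ?_⟩
  have e1 : ∑ a ∈ Finset.Icc 1 j, (-c a) / 4 ^ a = - ∑ a ∈ Finset.Icc 1 j, c a / 4 ^ a := by
    rw [← Finset.sum_neg_distrib]
    apply Finset.sum_congr rfl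
    intro a _
    ring
  rw [e1] at hj2
  linarith

end Pool.Agent.Helper46.HB
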