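import Mathlib
import Pool.Agent.Helper46.HB.D

set_option autoImplicit false

namespace Pool.Agent.Helper46.HB

open Finset Pool.Agent.Helper43.OD

lemma e_geom (a0 t : ℕ) : ∑ a ∈ Finset.Icc (a0 + 1) (a0 + t), (1 : ℝ) / 4 ^ a < (1 / 3) * (1 / 4 ^ a0) := by
  have h : ∑ a ∈ Finset.Icc (a0 + 1) (a0 + t), (1 : ℝ) / 4 ^ a = (1 / 3) * (1 / 4 ^ a0) - (1 / 3) * (1 / 4 ^ (a0 + t)) := by
    induction t with
    | zero => simp
    | succ t ih =>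
      have e1 := Finset.sum_Icc_succ_top (show a0 + 1 ≤ a0 + t + 1 by omega) (fun a => (1 : ℝ) / 4 ^ a)
      rw [← add_assoc, e1, ih, pow_succ 4 (a0 + t)]
      field_simp
      ring
  rw [h]
  have : (0 : ℝ) < (1 / 3) * (1 / 4 ^ (a0 + t)) := by positivity
  linarith

/-- positive first coefficient -/
lemma e_pos (n : ℕ) (c : ℕ → ℝ) (a0 : ℕ) (ha0 : a0 ∈ Finset.Icc 1 n) (hpos : 0 < c a0)
    (hfirst : ∀ a ∈ Finset.Icc 1 n, a < a0 → c a = 0) (j : ℕ) (hj : j ∈ Finset.Icc 1 n)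
    (hS : ∑ a ∈ Finset.Icc 1 j, c a / 4 ^ a < 0) :
    ∃ a ∈ Finset.Icc 1 n, a0 < a ∧ 3 * |c a0| < |c a| := by
  have ha0' := Finset.mem_Icc.1 ha0
  have hj' := Finset.mem_Icc.1 hj
  by_contra hcon
  push Not at hcon
  rcases Nat.lt_or_ge j a0 with hlt | hge
  · have : ∑ a ∈ Finset.Icc 1 j, c a / 4 ^ a = 0 := by
      apply Finset.sum_eq_zero
      intro a ha
      have ha' := Finset.mem_Icc.1 ha
      rw [hfirst a (Finset.mem_Icc.2 ⟨ha'.1, by omega⟩) (by omega), zero_div]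
    linarith
  · obtain ⟨t, rfl⟩ : ∃ t, j = a0 + t := ⟨j - a0, by omega⟩
    obtain ⟨b, rfl⟩ : ∃ b, a0 = b + 1 := ⟨a0 - 1, by omega⟩
    have h1 : ∑ a ∈ Finset.Icc 1 (b + 1 + t), c a / 4 ^ a =
        c (b + 1) / 4 ^ (b + 1) + ∑ a ∈ Finset.Icc (b + 1 + 1) (b + 1 + t), c a / 4 ^ a := by
      have k1 : Finset.Icc 1 (b + 1 + t) = Finset.Ico 1 (b + 1 + t + 1) := by
        ext s; simp only [Finset.mem_Icc, Finset.mem_Ico]; omega
      have k2 : Finset.Icc (b + 1 + 1) (b + 1 + t) = Finset.Ico (b + 1 + 1) (b + 1 + t + 1) := by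
        ext s; simp only [Finset.mem_Icc, Finset.mem_Ico]; omega
      rw [k1, k2, ← Finset.sum_Ico_consecutive _ (show 1 ≤ b + 1 + 1 by omega) (show b + 1 + 1 ≤ b + 1 + t + 1 by omega)]
      congr 1
      rw [Finset.sum_Ico_succ_top (by omega)]
      have : ∑ a ∈ Finset.Ico 1 (b + 1), c a / 4 ^ a = 0 := by
        apply Finset.sum_eq_zero
        intro a ha
        have ha' := Finset.mem_Ico.1 ha
        rw [hfirst a (Finset.mem_Icc.2 ⟨ha'.1, by omega⟩) (by omega), zero_div]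
      rw [this, zero_add]
    have h2 : ∑ a ∈ Finset.Icc (b + 1 + 1) (b + 1 + t), (-(3 * c (b + 1)) * (1 / 4 ^ a)) ≤
        ∑ a ∈ Finset.Icc (b + 1 + 1) (b + 1 + t), c a / 4 ^ a := by
      apply Finset.sum_le_sum
      intro a ha
      have ha' := Finset.mem_Icc.1 ha
      have h3 := hcon a (Finset.mem_Icc.2 ⟨by omega, by omega⟩) (by omega)
      rw [abs_of_pos hpos] at h3
      have h4 := (abs_le.1 h3).1
      have h8 : (0 : ℝ) ≤ 1 / 4 ^ a := by positivity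
      calc -(3 * c (b + 1)) * (1 / 4 ^ a) ≤ c a * (1 / 4 ^ a) := mul_le_mul_of_nonneg_right h4 h8
        _ = c a / 4 ^ a := by ring
    rw [← Finset.mul_sum] at h2
    have h5 := e_geom (b + 1) t
    rw [h1] at hS
    have h6 : (3 * c (b + 1)) * ∑ a ∈ Finset.Icc (b + 1 + 1) (b + 1 + t), (1 : ℝ) / 4 ^ a ≤
        (3 * c (b + 1)) * ((1 / 3) * (1 / 4 ^ (b + 1))) := mul_le_mul_of_nonneg_left h5.le (by linarith)
    have h7 : (3 * c (b + 1)) * ((1 / 3) * (1 / 4 ^ (b + 1))) = c (b + 1) / 4 ^ (b + 1) := by ring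
    linarith

theorem first_coefficient : ∀ (m : ℕ) (c : ℕ → ℝ),
    ∑ a ∈ Finset.Icc 1 (m - 1), c a * (∑' p : ℕ × ℕ, (1 : ℝ) / ((((p.1 + p.2 + 2 : ℕ) : ℝ) ^ (2 * a + 1)) *
            (((p.2 + 1 : ℕ) : ℝ) ^ (2 * m - (2 * a + 1))))) = 0 →
    (∃ a ∈ Finset.Icc 1 (m - 1), c a ≠ 0) →
    (∃ j ∈ Finset.Icc 1 (m - 1), ∑ a ∈ Finset.Icc 1 j, c a / 4 ^ a < 0) ∧
    (∃ j ∈ Finset.Icc 1 (m - 1), 0 < ∑ a ∈ Finset.Icc 1 j, c a / 4 ^ a) ∧
    (∀ a0 ∈ Finset.Icc 1 (m - 1), c a0 ≠ 0 → (∀ a ∈ Finset.Icc 1 (m - 1), a < a0 → c a = 0) →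
      ∃ a ∈ Finset.Icc 1 (m - 1), a0 < a ∧ 3 * |c a0| < |c a|) := by
  intro m c h0 hne
  obtain ⟨⟨j1, hj1, hj1'⟩, ⟨j2, hj2, hj2'⟩⟩ := coefficient_growth m c h0 hne
  refine ⟨⟨j1, hj1, hj1'⟩, ⟨j2, hj2, hj2'⟩, ?_⟩
  intro a0 ha0 hc0 hfirst
  rcases lt_or_gt_of_ne hc0 with hneg | hpos
  · have h1 := e_pos (m - 1) (fun a => - c a) a0 ha0 (by simpa using hneg)
      (fun a ha hlt => by rw [hfirst a ha hlt, neg_zero]) j2 hj2 (by
        have e1 : ∑ a ∈ Finset.Icc 1 j2, (-c a) / 4 ^ a = - ∑ a ∈ Finset.Icc 1 j2, c a / 4 ^ a := by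
          rw [← Finset.sum_neg_distrib]
          apply Finset.sum_congr rfl
          intro a _
          ring
        rw [e1]
        linarith)
    obtain ⟨a, ha, ha1, ha2⟩ := h1
    refine ⟨a, ha, ha1, ?_⟩
    simpa using ha2
  · exact e_pos (m - 1) c a0 ha0 hpos hfirst j1 hj1 hj1'

end Pool.Agent.Helper46.HB
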